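import Pool.Agent.W969.MC.Avg4
import Pool.Agent.Y630.TF.Transfer

/-! Cliques in uniform hypergraphs: every hyperedge that carries a bit has many possible places. -/

set_option autoImplicit false
set_option linter.unusedSectionVars false
set_option linter.unusedVariables false

namespace Pool.Agent.Q9h3.UN

open Finset Pool.Agent.H560R2 Pool.Agent.W969.MC Pool.Agent.Y630.TF

section

variable {V I Λ : Type} [Fintype V] [DecidableEq V] [Fintype I] [DecidableEq I]
  [Fintype Λ] [DecidableEq Λ] {n m' r b2 κ r0 : ℕ}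

/-- the vertices: parts of tuples of values in the copies, with a number, and universal vertices -/
abbrev Vy (I Λ : Type) (m' r b2 κ r0 : ℕ) : Type :=
  (Fin m' × I × Fin r × (Fin b2 → Λ) × Fin κ) ⊕ Fin r0

/-- the bits: tuples of values in the copies -/
abbrev Xy (I Λ : Type) (m' r b2 : ℕ) : Type := Fin m' × (I × ((Fin r × Fin b2) → Λ))

/-- consistent sets of vertices -/
def Cons (h : I → (Fin r × Fin b2) → V) (e : Finset (Vy I Λ m' r b2 κ r0)) : Prop :=
  ∀ j i s τ c j' i' s' τ' c', Sum.inl (j, i, s, τ, c) ∈ e → Sum.inl (j', i', s', τ', c') ∈ e →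
    j = j' ∧ (i = i' → s = s' → τ = τ' ∧ c = c') ∧
      ∀ t t', h i (s, t) = h i' (s', t') → τ t = τ' t'

/-- the vertices of a place of a bit -/
def tupv (x : Xy I Λ m' r b2) (g : Fin r → Fin κ) (s : Fin r) : Vy I Λ m' r b2 κ r0 :=
  Sum.inl (x.1, x.2.1, s, (fun t => x.2.2 (s, t)), g s)

lemma tupv_inj (x : Xy I Λ m' r b2) (g : Fin r → Fin κ) :
    Function.Injective (tupv (r0 := r0) x g) := by
  intro s s' hs
  have h3 := Sum.inl.inj hs
  exact (Prod.ext_iff.mp (Prod.ext_iff.mp (Prod.ext_iff.mp h3).2).2).1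

/-- a place of a bit -/
def tups (x : Xy I Λ m' r b2) (g : Fin r → Fin κ) : Finset (Vy I Λ m' r b2 κ r0) :=
  univ.map ⟨tupv x g, tupv_inj x g⟩

lemma card_tups (x : Xy I Λ m' r b2) (g : Fin r → Fin κ) :
    (tups (r0 := r0) x g).card = r := by
  unfold tups
  rw [Finset.card_map, Finset.card_univ, Fintype.card_fin]

lemma mem_tups {x : Xy I Λ m' r b2} {g : Fin r → Fin κ} {v : Vy I Λ m' r b2 κ r0} :
    v ∈ tups x g ↔ ∃ s, tupv x g s = v := by
  unfold tups
  rw [Finset.mem_map]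
  simp

lemma tups_inj (hr : 0 < r) {x x' : Xy I Λ m' r b2} {g g' : Fin r → Fin κ}
    (hh : tups (r0 := r0) x g = tups x' g') : x = x' ∧ g = g' := by
  have key : ∀ s, x.1 = x'.1 ∧ x.2.1 = x'.2.1 ∧ (fun t => x.2.2 (s, t)) = (fun t => x'.2.2 (s, t)) ∧
      g s = g' s := by
    intro s
    have h1 : tupv (r0 := r0) x g s ∈ tups x' g' := by
      rw [← hh]
      exact mem_tups.mpr ⟨s, rfl⟩
    obtain ⟨s1, h2⟩ := mem_tups.mp h1
    have h3 := Sum.inl.inj h2
    simp only [Prod.mk.injEq] at h3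
    obtain ⟨h4, h5, rfl, h6, h7⟩ := h3
    exact ⟨h4.symm, h5.symm, h6.symm, h7.symm⟩
  refine ⟨Prod.ext (key ⟨0, hr⟩).1 (Prod.ext (key ⟨0, hr⟩).2.1 ?_), ?_⟩
  · funext st
    exact congrFun (key st.1).2.2.1 st.2
  · funext s
    exact (key s).2.2.2

/-- the hyperedges that carry bits -/
def slot (hr : 0 < r) (ι : Vy I Λ m' r b2 κ r0 ↪ Fin n) :
    Xy I Λ m' r b2 × (Fin r → Fin κ) ↪ {e : Finset (Fin n) // e.card = r} where
  toFun z := ⟨(tups z.1 z.2).map ι, by rw [Finset.card_map, card_tups]⟩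
  inj' := by
    rintro ⟨x, g⟩ ⟨x', g'⟩ hh
    have h1 : (tups x g).map ι = (tups x' g').map ι := congrArg Subtype.val hh
    have h2 := tups_inj hr (Finset.map_injective ι h1)
    exact Prod.ext h2.1 h2.2

open Classical in
/-- the constant hyperedges -/
noncomputable def base (ι : Vy I Λ m' r b2 κ r0 ↪ Fin n) (h : I → (Fin r × Fin b2) → V) :
    {e : Finset (Fin n) // e.card = r} → Bool :=
  fun e => decide (∃ e' : Finset (Vy I Λ m' r b2 κ r0), e'.map ι = e.1 ∧ Cons h e' ∧
    ∀ x g, tups x g ≠ e')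

/-- bits without contradictions -/
def SelfC (h : I → (Fin r × Fin b2) → V) (x : Xy I Λ m' r b2) : Prop :=
  ∀ a a', h x.2.1 a = h x.2.1 a' → x.2.2 a = x.2.2 a'

variable {ι : Vy I Λ m' r b2 κ r0 ↪ Fin n} {h : I → (Fin r × Fin b2) → V}

lemma cons_tups {x : Xy I Λ m' r b2} (hx : SelfC h x) (g : Fin r → Fin κ) :
    Cons (r0 := r0) h (tups x g) := by
  intro j i s τ c j' i' s' τ' c' h1 h2
  obtain ⟨s1, h3⟩ := mem_tups.mp h1
  obtain ⟨s2, h4⟩ := mem_tups.mp h2
  have h5 := Sum.inl.inj h3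
  have h6 := Sum.inl.inj h4
  simp only [Prod.mk.injEq] at h5 h6
  obtain ⟨rfl, rfl, rfl, rfl, rfl⟩ := h5
  obtain ⟨rfl, rfl, rfl, rfl, rfl⟩ := h6
  refine ⟨rfl, ?_, ?_⟩
  · rintro - rfl
    exact ⟨rfl, rfl⟩
  · intro t t' ht
    exact hx _ _ ht

variable [NeZero κ]

lemma host_iff (hr : 0 < r) {τ : Xy I Λ m' r b2 → (Fin r → Fin κ)} {y : Xy I Λ m' r b2 → Bool}
    (hy : ∀ x, y x = true → SelfC h x) (e : {e : Finset (Fin n) // e.card = r}) :
    host (slot hr ι) (base ι h) τ y e = true ↔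
      ∃ e' : Finset (Vy I Λ m' r b2 κ r0), e'.map ι = e.1 ∧ Cons h e' ∧
        ∀ x g, tups x g = e' → y x = true ∧ τ x = g := by
  classical
  rw [host_true]
  constructor
  · rintro (h1 | ⟨x, hx, h1⟩)
    · obtain ⟨e', h2, h3, h4⟩ := of_decide_eq_true h1
      exact ⟨e', h2, h3, fun x g hxg => absurd hxg (h4 x g)⟩
    · refine ⟨tups x (τ x), congrArg Subtype.val h1, cons_tups (hy x hx) _, ?_⟩
      intro x' g' h2
      obtain ⟨rfl, rfl⟩ := tups_inj hr h2
      exact ⟨hx, rfl⟩
  · rintro ⟨e', h1, h2, h3⟩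
    by_cases hex : ∃ x g, tups x g = e'
    · obtain ⟨x, g, hxg⟩ := hex
      obtain ⟨h4, h5⟩ := h3 x g hxg
      refine Or.inr ⟨x, h4, Subtype.ext ?_⟩
      show (tups x (τ x)).map ι = e.1
      rw [h5, hxg, h1]
    · push Not at hex
      exact Or.inl (decide_eq_true ⟨e', h1, h2, hex⟩)

/-- the embedding of a solution -/
def solE (h : I → (Fin r × Fin b2) → V) (τ : Xy I Λ m' r b2 → (Fin r → Fin κ)) (j : Fin m')
    (p : V → Λ) : (I × Fin r) ⊕ Fin r0 ↪ Vy I Λ m' r b2 κ r0 where
  toFun := Sum.map (fun is => (j, is.1, is.2, (fun t => p (h is.1 (is.2, t))),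
    τ (j, is.1, fun a => p (h is.1 a)) is.2)) id
  inj' := by
    rintro (⟨i, s⟩ | c) (⟨i', s'⟩ | c') hh
    · have h3 := Sum.inl.inj hh
      simp only [Prod.mk.injEq, true_and] at h3
      obtain ⟨rfl, rfl, -⟩ := h3
      rfl
    · simp at hh
    · simp at hh
    · have h3 := Sum.inr.inj hh
      simp only [id] at h3
      rw [h3]

lemma mem_solE {τ : Xy I Λ m' r b2 → (Fin r → Fin κ)} {j : Fin m'} {p : V → Λ} {j' : Fin m'}
    {i : I} {s : Fin r} {u : Fin b2 → Λ} {c : Fin κ}
    (hx : (Sum.inl (j', i, s, u, c) : Vy I Λ m' r b2 κ r0) ∈ univ.map (solE h τ j p)) :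
    j' = j ∧ (u = fun t => p (h i (s, t))) ∧ c = τ (j, i, fun a => p (h i a)) s := by
  obtain ⟨z, -, hz⟩ := Finset.mem_map.mp hx
  rcases z with ⟨i1, s1⟩ | c1
  · have h3 := Sum.inl.inj hz
    simp only [Prod.mk.injEq] at h3
    obtain ⟨rfl, rfl, rfl, rfl, rfl⟩ := h3
    exact ⟨rfl, rfl, rfl⟩
  · have h3 : (Sum.inr (id c1) : Vy I Λ m' r b2 κ r0) = Sum.inl (j', i, s, u, c) := hz
    exact absurd h3 (by simp)

/-- the hypergraph has a large clique exactly if one of the copies is solvable -/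
theorem host_clique (hr : 2 ≤ r) (hb2 : 0 < b2) (hI : 0 < Fintype.card I)
    {τ : Xy I Λ m' r b2 → (Fin r → Fin κ)} {y : Xy I Λ m' r b2 → Bool}
    (hy : ∀ x, y x = true → SelfC h x) :
    HasClq n r (r * Fintype.card I + r0)
      (host (slot (by omega : 0 < r) ι) (base ι h) τ y) ↔
      ∃ j, ∃ p : V → Λ, ∀ i, y (j, i, fun a => p (h i a)) = true := by
  classical
  have hr0 : 0 < r := by omega
  constructor
  · rintro ⟨S, hS, hcl⟩
    have hSr : r ≤ S.card := by
      rw [hS]
      have : r * 1 ≤ r * Fintype.card I := Nat.mul_le_mul_left _ hI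
      omega
    -- hyperedges inside `S`
    have hedge : ∀ F ⊆ S, F.card ≤ r → ∃ e' : Finset (Vy I Λ m' r b2 κ r0),
        F ⊆ e'.map ι ∧ e'.map ι ⊆ S ∧ e'.card = r ∧ Cons h e' ∧
          ∀ x g, tups x g = e' → y x = true ∧ τ x = g := by
      intro F hF hFr
      obtain ⟨e, h1, h2, h3⟩ := Finset.exists_subsuperset_card_eq hF hFr hSr
      obtain ⟨e', h4, h5, h6⟩ := (host_iff hr0 hy ⟨e, h3⟩).mp (hcl ⟨e, h3⟩ h2)
      have h7 : e'.map ι = e := h4
      refine ⟨e', by rw [h7]; exact h1, by rw [h7]; exact h2, ?_, h5, h6⟩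
      rw [← Finset.card_map ι, h7, h3]
    set S' : Finset (Vy I Λ m' r b2 κ r0) := univ.filter (fun x => ι x ∈ S) with hS'
    have hmap : S'.map ι = S := by
      ext v
      rw [Finset.mem_map]
      constructor
      · rintro ⟨x, hx, rfl⟩
        exact (Finset.mem_filter.mp hx).2
      · intro hv
        obtain ⟨e', h1, -, -⟩ := hedge {v} (by simpa using hv) (by rw [Finset.card_singleton]; omega)
        obtain ⟨x, -, hx⟩ := Finset.mem_map.mp (h1 (Finset.mem_singleton_self v))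
        exact ⟨x, Finset.mem_filter.mpr ⟨mem_univ _, by rw [hx]; exact hv⟩, hx⟩
    have hcard : S'.card = r * Fintype.card I + r0 := by
      rw [← hS, ← hmap, Finset.card_map]
    -- pairs
    have hpair : ∀ j i s u c j' i' s' u' c', Sum.inl (j, i, s, u, c) ∈ S' →
        Sum.inl (j', i', s', u', c') ∈ S' →
        j = j' ∧ (i = i' → s = s' → u = u' ∧ c = c') ∧
          ∀ t t', h i (s, t) = h i' (s', t') → u t = u' t' := by
      intro j i s u c j' i' s' u' c' h1 h2
      obtain ⟨e', h3, -, -, hp, -⟩ := hedge {ι (Sum.inl (j, i, s, u, c)),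
          ι (Sum.inl (j', i', s', u', c'))} (by
        intro v hv
        rw [Finset.mem_insert, Finset.mem_singleton] at hv
        rcases hv with rfl | rfl
        · exact (Finset.mem_filter.mp h1).2
        · exact (Finset.mem_filter.mp h2).2) ((Finset.card_le_two).trans hr)
      have h4 : Sum.inl (j, i, s, u, c) ∈ e' := by
        have := h3 (Finset.mem_insert_self _ _)
        rwa [Finset.mem_map' ι] at this
      have h5 : Sum.inl (j', i', s', u', c') ∈ e' := by
        have := h3 (Finset.mem_insert_of_mem (Finset.mem_singleton_self _))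
        rwa [Finset.mem_map' ι] at this
      exact hp _ _ _ _ _ _ _ _ _ _ h4 h5
    -- all parts are present
    let g : Vy I Λ m' r b2 κ r0 → (I × Fin r) ⊕ Fin r0 := Sum.map (fun x => (x.2.1, x.2.2.1)) id
    have hg : Set.InjOn g S' := by
      rintro (⟨j, i, s, u, c⟩ | c) hx (⟨j', i', s', u', c'⟩ | c') hx' hh
      · have h3 := Sum.inl.inj hh
        simp only [Prod.mk.injEq] at h3
        obtain ⟨rfl, rfl⟩ := h3
        obtain ⟨rfl, h4, -⟩ := hpair _ _ _ _ _ _ _ _ _ _ (Finset.mem_coe.mp hx)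
          (Finset.mem_coe.mp hx')
        rw [(h4 rfl rfl).1, (h4 rfl rfl).2]
      · simp [g] at hh
      · simp [g] at hh
      · have h3 := Sum.inr.inj hh
        simp only [id] at h3
        rw [h3]
    have himg : S'.image g = univ := by
      apply Finset.eq_univ_of_card
      rw [Finset.card_image_of_injOn hg, hcard, Fintype.card_sum, Fintype.card_prod,
        Fintype.card_fin, Fintype.card_fin, mul_comm]
    have hall : ∀ i s, ∃ j u c, (Sum.inl (j, i, s, u, c) : Vy I Λ m' r b2 κ r0) ∈ S' := by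
      intro i s
      have h1 : (Sum.inl (i, s) : (I × Fin r) ⊕ Fin r0) ∈ S'.image g := by
        rw [himg]
        exact mem_univ _
      obtain ⟨x, hx, hgx⟩ := Finset.mem_image.mp h1
      rcases x with ⟨j, i', s', u, c⟩ | c
      · have h3 := Sum.inl.inj hgx
        simp only [Prod.mk.injEq] at h3
        obtain ⟨rfl, rfl⟩ := h3
        exact ⟨j, u, c, hx⟩
      · simp [g] at hgx
    choose jj u cc hu using hall
    obtain ⟨i0⟩ := Fintype.card_pos_iff.mp hI
    have hjj : ∀ i s, jj i s = jj i0 ⟨0, hr0⟩ := fun i s =>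
      (hpair _ _ _ _ _ _ _ _ _ _ (hu i s) (hu i0 ⟨0, hr0⟩)).1
    -- the assignment
    have hΛ : Nonempty Λ := ⟨u i0 ⟨0, hr0⟩ ⟨0, hb2⟩⟩
    let p : V → Λ := fun v => if hv : ∃ z : I × (Fin r × Fin b2), h z.1 z.2 = v then
      u hv.choose.1 hv.choose.2.1 hv.choose.2.2 else Classical.choice hΛ
    have hp : ∀ i s t, p (h i (s, t)) = u i s t := by
      intro i s t
      have hv : ∃ z : I × (Fin r × Fin b2), h z.1 z.2 = h i (s, t) := ⟨(i, (s, t)), rfl⟩
      simp only [p, dif_pos hv]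
      exact (hpair _ _ _ _ _ _ _ _ _ _ (hu _ _) (hu i s)).2.2 _ _ hv.choose_spec
    refine ⟨jj i0 ⟨0, hr0⟩, p, ?_⟩
    intro i
    set x : Xy I Λ m' r b2 := (jj i0 ⟨0, hr0⟩, i, fun a => p (h i a)) with hx
    have hsub : ∀ s, tupv (r0 := r0) x (cc i) s ∈ S' := by
      intro s
      have h1 := hu i s
      rw [hjj] at h1
      have h2 : tupv (r0 := r0) x (cc i) s = Sum.inl (jj i0 ⟨0, hr0⟩, i, s, u i s, cc i s) := by
        unfold tupv
        have h3 : (fun t => x.2.2 (s, t)) = u i s := by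
          funext t
          exact hp i s t
        rw [h3]
      rw [h2]
      exact h1
    obtain ⟨e', h3, -, hc, -, hpr⟩ := hedge ((tups (r0 := r0) x (cc i)).map ι) (by
      intro v hv
      obtain ⟨w, hw, rfl⟩ := Finset.mem_map.mp hv
      obtain ⟨s, rfl⟩ := mem_tups.mp hw
      exact (Finset.mem_filter.mp (hsub s)).2) (by
      rw [Finset.card_map, card_tups])
    have h4 : tups x (cc i) ⊆ e' := by
      intro w hw
      have := h3 (Finset.mem_map_of_mem ι hw)
      rwa [Finset.mem_map' ι] at this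
    have h5 : tups x (cc i) = e' :=
      Finset.eq_of_subset_of_card_le h4 (by rw [hc, card_tups])
    exact (hpr x (cc i) h5).1
  · rintro ⟨j, p, hjp⟩
    refine ⟨(univ.map (solE h τ j p)).map ι, ?_, ?_⟩
    · rw [Finset.card_map, Finset.card_map, Finset.card_univ, Fintype.card_sum, Fintype.card_prod,
        Fintype.card_fin, Fintype.card_fin, mul_comm]
    · rintro ⟨e, he⟩ heS
      rw [host_iff hr0 hy]
      refine ⟨(univ.map (solE h τ j p)).filter (fun x => ι x ∈ e), ?_, ?_, ?_⟩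
      · ext v
        rw [Finset.mem_map]
        constructor
        · rintro ⟨x, hx, rfl⟩
          exact (Finset.mem_filter.mp hx).2
        · intro hv
          obtain ⟨x, hx, hxv⟩ := Finset.mem_map.mp (heS hv)
          exact ⟨x, Finset.mem_filter.mpr ⟨hx, by rw [hxv]; exact hv⟩, hxv⟩
      · intro j1 i s u c j' i' s' u' c' h1 h2
        obtain ⟨rfl, rfl, rfl⟩ := mem_solE (Finset.mem_filter.mp h1).1
        obtain ⟨rfl, rfl, rfl⟩ := mem_solE (Finset.mem_filter.mp h2).1
        refine ⟨rfl, ?_, ?_⟩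
        · rintro rfl rfl
          exact ⟨rfl, rfl⟩
        · intro t t' ht
          simp only
          rw [ht]
      · rintro ⟨j1, i, σ⟩ g hs
        have h0 : ∀ s, tupv (r0 := r0) (j1, i, σ) g s ∈ univ.map (solE h τ j p) := by
          intro s
          have h1 : tupv (r0 := r0) (j1, i, σ) g s ∈ tups (j1, i, σ) g := mem_tups.mpr ⟨s, rfl⟩
          rw [hs] at h1
          exact (Finset.mem_filter.mp h1).1
        have h1 := fun s => mem_solE (h0 s)
        have hj : j1 = j := (h1 ⟨0, hr0⟩).1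
        subst hj
        have hσ : σ = fun a => p (h i a) := by
          funext a
          exact congrFun (h1 a.1).2.1 a.2
        subst hσ
        refine ⟨hjp i, ?_⟩
        funext s
        exact (h1 s).2.2.symm

end

end Pool.Agent.Q9h3.UN
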