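import Pool.Agent.Q9h3.UN.Gad
import Pool.Agent.Y630.TF.Subst
import Pool.Agent.Y630.TR.Lsub

/-! Cliques in uniform hypergraphs, circuits whose negated inputs are unreliable: the lower bound
with integer parameters. -/

set_option autoImplicit false
set_option linter.unusedSectionVars false
set_option linter.unusedVariables false

namespace Pool.Agent.Q9h3.UN

open Finset Pool.Agent.H560R2 Pool.Agent.W969.MC Pool.Agent.Y630.TF Pool.Agent.Y630.NW

lemma tu_sub {V I A Λ : Type} [Fintype V] [DecidableEq V] [Fintype I] [DecidableEq I] [Fintype A]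
    [DecidableEq A] [Fintype Λ] [DecidableEq Λ] {h : I → A → V} {p : V → Λ}
    {Y : Set (I × (A → Λ))} :
    (tu h (gr p) : Set (I × (A → Λ))) ⊆ Y ↔ ∀ i, (i, fun a => p (h i a)) ∈ Y := by
  classical
  constructor
  · intro hs i
    apply hs
    apply Finset.mem_coe.mpr
    unfold tu
    rw [Finset.mem_filter]
    refine ⟨mem_univ _, fun a => ?_⟩
    rw [mem_gr]
  · intro hs
    rintro ⟨i, σ⟩ hu
    have h1 := (Finset.mem_filter.mp (Finset.mem_coe.mp hu)).2
    have h2 : σ = fun a => p (h i a) := by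
      funext a
      have h3 := h1 a
      rw [mem_gr] at h3
      exact h3.symm
    rw [h2]
    exact hs i

section

variable {V I Λ : Type} [Fintype V] [DecidableEq V] [Fintype I] [DecidableEq I]
  [Fintype Λ] [DecidableEq Λ] {m' r b2 : ℕ}

open Classical in
/-- the bits of an instance of the constraint satisfaction problem -/
noncomputable def encX (h : I → (Fin r × Fin b2) → V)
    (y : Fin m' → Set (I × ((Fin r × Fin b2) → Λ))) : Xy I Λ m' r b2 → Bool :=
  fun x => decide (x.2 ∈ y x.1 ∧ SelfC h x)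

lemma encX_true {h : I → (Fin r × Fin b2) → V}
    {y : Fin m' → Set (I × ((Fin r × Fin b2) → Λ))} {x : Xy I Λ m' r b2} :
    encX h y x = true ↔ x.2 ∈ y x.1 ∧ SelfC h x := by
  classical
  unfold encX
  rw [decide_eq_true_iff]

lemma encX_sol {h : I → (Fin r × Fin b2) → V}
    {y : Fin m' → Set (I × ((Fin r × Fin b2) → Λ))} :
    (∃ j, ∃ p : V → Λ, ∀ i, encX h y (j, i, fun a => p (h i a)) = true) ↔
      ∃ j, ∃ p : V → Λ, (tu h (gr p) : Set (I × ((Fin r × Fin b2) → Λ))) ⊆ y j := by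
  constructor
  · rintro ⟨j, p, hp⟩
    exact ⟨j, p, tu_sub.mpr fun i => (encX_true.mp (hp i)).1⟩
  · rintro ⟨j, p, hp⟩
    refine ⟨j, p, fun i => encX_true.mpr ⟨tu_sub.mp hp i, ?_⟩⟩
    intro a a' haa
    show p (h i a) = p (h i a')
    have : h i a = h i a' := haa
    rw [this]

lemma encX_mono {h : I → (Fin r × Fin b2) → V}
    {y y' : Fin m' → Set (I × ((Fin r × Fin b2) → Λ))} (hy : ∀ j, y j ⊆ y' j) :
    encX h y ≤ encX h y' := by
  intro x
  rcases hx : encX h y x with _ | _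
  · exact Bool.false_le _
  · obtain ⟨h1, h2⟩ := encX_true.mp hx
    rw [encX_true.mpr ⟨hy _ h1, h2⟩]

lemma encX_narrow {h : I → (Fin r × Fin b2) → V}
    (y : Fin m' → Set (I × ((Fin r × Fin b2) → Λ))) (J : Fin m') (x : Xy I Λ m' r b2) :
    ∃ T' : Finset (I × ((Fin r × Fin b2) → Λ)), T'.card ≤ 1 ∧
      ∀ z z' : Set (I × ((Fin r × Fin b2) → Λ)), (∀ u ∈ T', u ∈ z → u ∈ z') →
        encX h (Function.update y J z) x = true → encX h (Function.update y J z') x = true := by
  classical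
  refine ⟨{x.2}, by simp, fun z z' hz hx => ?_⟩
  obtain ⟨h1, h2⟩ := encX_true.mp hx
  refine encX_true.mpr ⟨?_, h2⟩
  by_cases hj : x.1 = J
  · rw [hj, Function.update_self] at h1 ⊢
    exact hz _ (Finset.mem_singleton_self _) h1
  · rw [Function.update_of_ne hj] at h1 ⊢
    exact h1

end

/-- the lower bound with integer parameters -/
theorem clique_fault_param {n r κ D : ℕ} {R : Type} [Fintype R] [Nonempty R]
    {b2 b q M m s w m' r0 : ℕ} (hr : 2 ≤ r) (P : Pars r b2 b q M m s w)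
    (hκ : 0 < κ) (hD : 0 < D)
    (hn : m' * (M * (r * (q ^ b2 * κ))) + r0 ≤ n)
    (C : R → RC ({e : Finset (Fin n) // e.card = r} × Bool)) (hT : ∀ ρ, (C ρ).T = ∅) (A0 g : ℝ)
    (hbad : ((m' * (M * q ^ (r * b2)) : ℕ) : ℝ) * (1 - 1 / (D : ℝ)) ^ (κ ^ r) ≤ g / 2)
    (hyes : ∀ x, HasClq n r (r * M + r0) x →
      (A0 + g) * (Fintype.card R * (D : ℝ) ^ Fintype.card {e : Finset (Fin n) // e.card = r}) ≤
        ({z : R × ({e : Finset (Fin n) // e.card = r} → Fin D) |
          (C z.1).acc (lit x (Flt z.2))}.ncard : ℝ))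
    (hno : ∀ x, ¬ HasClq n r (r * M + r0) x →
      ({ρ : R | (C ρ).acc (lit x ∅)}.ncard : ℝ) ≤ A0 * Fintype.card R)
    (hm' : 1 ≤ g / 2 / 2 * m')
    (hlen : ∀ ρ, (C ρ).S ≤ (q + 1) ^ m) (hq : 16 / (q : ℝ) ≤ g / 2)
    (hlt : ∀ ρ, 16 * ((C ρ).S : ℝ) * 2 ^ (w / (2 * b) / b + 1) <
      g / 2 * (q : ℝ) ^ (w / (2 * b) / b + 1)) : False := by
  classical
  obtain ⟨h, hG⟩ := P.good
  have hrpos : 0 < r := by omega
  have _ : NeZero κ := ⟨hκ.ne'⟩
  have : Nonempty (Fin r × Fin b2) := ⟨(⟨0, hrpos⟩, ⟨0, P.hb2⟩)⟩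
  have hcard : Fintype.card (Vy (Fin M) (Fin q) m' r b2 κ r0) ≤ Fintype.card (Fin n) := by
    simp only [Fintype.card_sum, Fintype.card_prod, Fintype.card_fin, Fintype.card_fun]
    exact hn
  obtain ⟨ι⟩ := Function.Embedding.nonempty_of_card_le hcard
  have hMpos : 0 < M := by
    have := P.hM
    have := P.hm
    omega
  have hqpos : 0 < q := by
    have := P.hq
    omega
  have hm'pos : 0 < m' := by
    rcases Nat.eq_zero_or_pos m' with h0 | h0
    · rw [h0] at hm'
      norm_num at hm'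
    · exact h0
  have hcl : ∀ (τ : Xy (Fin M) (Fin q) m' r b2 → (Fin r → Fin κ))
      (y : Fin m' → Set (Fin M × ((Fin r × Fin b2) → Fin q))),
      HasClq n r (r * M + r0) (host (slot hrpos ι) (base ι h) τ (encX h y)) ↔
        ∃ j, ∃ p : Fin m → Fin q,
          (tu h (gr p) : Set (Fin M × ((Fin r × Fin b2) → Fin q))) ⊆ y j := by
    intro τ y
    have h1 := host_clique (ι := ι) (h := h) (r0 := r0) hr P.hb2
      (by rw [Fintype.card_fin]; exact hMpos) (τ := τ) (y := encX h y)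
      (fun x hx => (encX_true.mp hx).2)
    rw [Fintype.card_fin] at h1
    exact h1.trans encX_sol
  have x0 : Xy (Fin M) (Fin q) m' r b2 := (⟨0, hm'pos⟩, ⟨0, hMpos⟩, fun _ => ⟨0, hqpos⟩)
  -- the circuits on the bits
  have hex : ∀ ω : R × (Xy (Fin M) (Fin q) m' r b2 → (Fin r → Fin κ)),
      ∃ C' : RC (Xy (Fin M) (Fin q) m' r b2), C'.size = (C ω.1).S ∧ C'.free = 1 ∧
        ∀ y, C'.acc y ↔ (C ω.1).acc (rlit (slot hrpos ι) (base ι h) ω.2 y) := by
    intro ω
    obtain ⟨σ, c, hσ⟩ := Pool.Agent.Y630.TR.rlit_lsb (slot hrpos ι) (base ι h) ω.2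
    obtain ⟨C', hsize, hfree, -, hacc⟩ := subst (C ω.1) x0 σ c
    refine ⟨C', ?_, ?_, fun y => ?_⟩
    · rw [hsize]
      unfold RC.size
      rw [hT ω.1, Finset.sum_empty, Nat.add_zero]
    · rw [hfree]
      unfold RC.free
      rw [hT ω.1, Finset.prod_empty]
    · rw [hacc, hσ]
      rfl
  choose C' hsize hfree hacc using hex
  refine csp_rand hG (m' := m') C' (encX h) (fun y y' hy => encX_mono hy)
    (fun y J x => encX_narrow y J x) A0 (g / 2) ?_ ?_ ?_ ?_ ?_ ?_
  · intro y hy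
    have h3 := transfer_yes (slot hrpos ι) (base ι h) hD
      (fun ρ v => (C ρ).acc v) (fun ρ u v huv hu => acc_mono _ (hT ρ) huv hu) A0 g
      (by
        rw [Fintype.card_fun, Fintype.card_fin, Fintype.card_fin]
        have h4 : Fintype.card (Xy (Fin M) (Fin q) m' r b2) = m' * (M * q ^ (r * b2)) := by
          simp only [Fintype.card_prod, Fintype.card_fin, Fintype.card_fun]
        rw [h4]
        exact hbad) (encX h y) (fun τ => hyes _ ((hcl τ y).mpr hy))
    refine h3.trans (le_of_eq ?_)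
    congr 2
    ext ω
    exact (hacc ω _).symm
  · intro y hy
    have h3 := transfer_no (slot hrpos ι) (base ι h)
      (fun ρ v => (C ρ).acc v) (fun ρ u v huv hu => acc_mono _ (hT ρ) huv hu) A0 (encX h y)
      (fun τ => hno _ (fun hh => hy ((hcl τ y).mp hh)))
    refine (le_of_eq ?_).trans h3
    congr 2
    ext ω
    exact hacc ω _
  · intro ω
    rw [hfree, Nat.cast_one]
    exact hm'
  · intro ω
    rw [hsize, Fintype.card_fin, Fintype.card_fin]
    exact hlen ω.1
  · rw [Fintype.card_fin]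
    exact hq
  · intro ω
    rw [hsize, Fintype.card_fin]
    exact hlt ω.1

end Pool.Agent.Q9h3.UN
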