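import Pool.Agent.Q9h3.UN.Low

/-! Cliques in uniform hypergraphs, circuits whose negated inputs are unreliable: the lower
bound. -/

set_option autoImplicit false
set_option linter.unusedSectionVars false
set_option linter.unusedVariables false

namespace Pool.Agent.Q9h3.UN

open Finset Pool.Agent.H560R2 Pool.Agent.W969.MC Pool.Agent.Y630.TF Pool.Agent.Y630.NW

/-- the faults hit all the places of every bit -/
lemma places {D κ r n X : ℕ} {L δ : ℝ} (hD : 0 < D) (hn : 1 ≤ n) (hX : X ≤ n ^ r)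
    (hL : (r + δ) * Real.log n ≤ L) (hκ : (D : ℝ) * L ≤ (κ : ℝ) ^ r) :
    (X : ℝ) * (1 - 1 / (D : ℝ)) ^ (κ ^ r) ≤ (n : ℝ) ^ (-δ) := by
  have hDR : (0 : ℝ) < D := by exact_mod_cast hD
  have hnR : (1 : ℝ) ≤ n := by exact_mod_cast hn
  have hnpos : (0 : ℝ) < n := by linarith
  have h0 : (0 : ℝ) ≤ 1 - 1 / (D : ℝ) := by
    rw [sub_nonneg, div_le_one hDR]
    exact_mod_cast hD
  have h1 : (1 - 1 / (D : ℝ)) ≤ Real.exp (-(1 / D)) := by
    have := Real.add_one_le_exp (-(1 / (D : ℝ)))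
    linarith
  have h2 : (1 - 1 / (D : ℝ)) ^ (κ ^ r) ≤ Real.exp (-(((κ : ℝ) ^ r) / D)) := by
    calc (1 - 1 / (D : ℝ)) ^ (κ ^ r) ≤ Real.exp (-(1 / D)) ^ (κ ^ r) :=
          pow_le_pow_left₀ h0 h1 _
      _ = Real.exp (-(((κ : ℝ) ^ r) / D)) := by
          rw [← Real.exp_nat_mul]
          congr 1
          push_cast
          ring
  have h3 : L ≤ ((κ : ℝ) ^ r) / D := by
    rw [le_div_iff₀ hDR]
    linarith
  have h4 : Real.exp (-(((κ : ℝ) ^ r) / D)) ≤ (n : ℝ) ^ (-((r : ℝ) + δ)) := by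
    rw [Real.rpow_def_of_pos hnpos]
    apply Real.exp_le_exp.mpr
    nlinarith [hL, h3]
  have h5 : (X : ℝ) ≤ (n : ℝ) ^ (r : ℝ) := by
    rw [Real.rpow_natCast]
    exact_mod_cast hX
  calc (X : ℝ) * (1 - 1 / (D : ℝ)) ^ (κ ^ r) ≤ (n : ℝ) ^ (r : ℝ) * (n : ℝ) ^ (-((r : ℝ) + δ)) := by
        apply mul_le_mul h5 (h2.trans h4) (by positivity) (by positivity)
    _ = (n : ℝ) ^ (-δ) := by
        rw [← Real.rpow_add hnpos]
        congr 1
        ring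

/-- the number of bits -/
lemma card_bits {m' M r q b2 n : ℕ} (hr : 0 < r) (hm' : 0 < m') (hM : 0 < M)
    (h : 2 * (m' * (M * (r * q ^ b2))) ≤ n) : m' * (M * q ^ (r * b2)) ≤ n ^ r := by
  have h1 : m' * (M * q ^ b2) ≤ n := by
    have h2 : m' * (M * q ^ b2) ≤ m' * (M * (r * q ^ b2)) :=
      Nat.mul_le_mul_left _ (Nat.mul_le_mul_left _ (Nat.le_mul_of_pos_left _ hr))
    omega
  have h3 : m' ≤ m' ^ r := Nat.le_self_pow hr.ne' _
  have h4 : M ≤ M ^ r := Nat.le_self_pow hr.ne' _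
  calc m' * (M * q ^ (r * b2)) ≤ m' ^ r * (M ^ r * q ^ (r * b2)) :=
        Nat.mul_le_mul h3 (Nat.mul_le_mul_right _ h4)
    _ = (m' * (M * q ^ b2)) ^ r := by
        rw [mul_pow, mul_pow, ← pow_mul, mul_comm b2 r]
    _ ≤ n ^ r := Nat.pow_le_pow_left h1 r

/-- the number of vertices of the small hypergraph -/
lemma choose_n {ε δ : ℝ} (hε : 0 < ε) (hε1 : ε ≤ 1 / 2) (hδ : 0 < δ) (r : ℕ) (hr : 2 ≤ r)
    (n0 : ℕ) :
    ∃ ν0 : ℕ, ∀ ν N k : ℕ, ν0 ≤ ν → ν0 ≤ k → ν ≤ N → ∃ n k' : ℕ, n0 ≤ k' ∧ k' ≤ k ∧ 2 * k' ≤ n + 1 ∧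
      1 ≤ (r + δ) * Real.log ν ∧ n ≤ ν ∧ 1 ≤ n ∧
      (n : ℝ) * (N / ν * ((r + δ) * Real.log ν) + 1) ≤ N ∧
      (ν : ℝ) ^ (1 / 2 : ℝ) ≤ n ∧ 2 * (n : ℝ) ^ (-(δ / 4)) ≤ (ν : ℝ) ^ (-(δ / 16)) ∧
      min (k : ℝ) ((ν : ℝ) ^ ((r : ℝ) / (r + 1) - ε)) ≤
        min (k' : ℝ) ((n : ℝ) ^ ((r : ℝ) / (r + 1) - ε / 3)) := by
  have hrR : (2 : ℝ) ≤ r := by exact_mod_cast hr
  have hrpos : (0 : ℝ) < r := by linarith
  have hγ1 : (2 : ℝ) / 3 ≤ (r : ℝ) / (r + 1) := by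
    rw [div_le_div_iff₀ (by norm_num) (by positivity)]
    linarith
  have hγ2 : (r : ℝ) / (r + 1) ≤ 1 := by
    rw [div_le_one (by positivity)]
    linarith
  set γ : ℝ := (r : ℝ) / (r + 1) with hγ
  obtain ⟨a1, ha1⟩ := ev_rpow (η := ε / 3) (by positivity) 16
  obtain ⟨a2, ha2⟩ := ev_rpow (η := ε / 6) (by positivity) (2 * ((r + δ) / (ε / 6)))
  obtain ⟨a3, ha3⟩ := ev_rpow (η := δ / 16) (by positivity) 2
  obtain ⟨a4, ha4⟩ := ev_rpow (η := 1 / 2) (by norm_num) (4 * ((n0 : ℝ) + 1))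
  refine ⟨max (max a1 a2) (max (max a3 a4) (max n0 3)), ?_⟩
  intro ν N k hν hk hνN
  have hb1 : a1 ≤ ν := (le_max_left _ _).trans ((le_max_left _ _).trans hν)
  have hb2 : a2 ≤ ν := (le_max_right _ _).trans ((le_max_left _ _).trans hν)
  have hb3 : a3 ≤ ν := (le_max_left _ _).trans ((le_max_left _ _).trans
    ((le_max_right _ _).trans hν))
  have hb4 : a4 ≤ ν := (le_max_right _ _).trans ((le_max_left _ _).trans
    ((le_max_right _ _).trans hν))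
  have hb5 : 3 ≤ ν := (le_max_right _ _).trans ((le_max_right _ _).trans
    ((le_max_right _ _).trans hν))
  have hkn0 : n0 ≤ k := (le_max_left _ _).trans ((le_max_right _ _).trans
    ((le_max_right _ _).trans hk))
  have hνR : (3 : ℝ) ≤ ν := by exact_mod_cast hb5
  have hνpos : (0 : ℝ) < ν := by linarith
  have hν1 : (1 : ℝ) ≤ ν := by linarith
  have hNR : (ν : ℝ) ≤ N := by exact_mod_cast hνN
  have hNpos : (0 : ℝ) < N := by linarith
  have e1 := ha1 ν hb1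
  have e2 := ha2 ν hb2
  have e3 := ha3 ν hb3
  have e4 := ha4 ν hb4
  -- the logarithm
  set L : ℝ := (r + δ) * Real.log ν with hL
  have hlog1 : 1 ≤ Real.log ν := by
    rw [Real.le_log_iff_exp_le hνpos]
    have := Real.exp_one_lt_d9
    linarith
  have hL1 : 1 ≤ L := by
    rw [hL]
    nlinarith
  have hL2 : 2 * L ≤ (ν : ℝ) ^ (ε / 3) := by
    have h1 : Real.log ν ≤ (ν : ℝ) ^ (ε / 6) / (ε / 6) :=
      Real.log_le_rpow_div hνpos.le (by positivity)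
    have h2 : (ν : ℝ) ^ (ε / 3) = (ν : ℝ) ^ (ε / 6) * (ν : ℝ) ^ (ε / 6) := by
      rw [← Real.rpow_add hνpos]
      congr 1
      ring
    have h3 : 0 < (ν : ℝ) ^ (ε / 6) := by positivity
    rw [h2, hL]
    calc 2 * ((r + δ) * Real.log ν) ≤ 2 * ((r + δ) * ((ν : ℝ) ^ (ε / 6) / (ε / 6))) := by
          apply mul_le_mul_of_nonneg_left _ (by norm_num)
          exact mul_le_mul_of_nonneg_left h1 (by positivity)
      _ = (2 * ((r + δ) / (ε / 6))) * (ν : ℝ) ^ (ε / 6) := by ring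
      _ ≤ (ν : ℝ) ^ (ε / 6) * (ν : ℝ) ^ (ε / 6) := mul_le_mul_of_nonneg_right e2 h3.le
  -- the number n
  set n : ℕ := ⌊(ν : ℝ) ^ (1 - ε / 3)⌋₊ with hn
  have hn1 : (n : ℝ) ≤ (ν : ℝ) ^ (1 - ε / 3) := Nat.floor_le (by positivity)
  have hn2 : (ν : ℝ) ^ (1 - ε / 3) - 1 < n := Nat.sub_one_lt_floor _
  have hsplit : (ν : ℝ) = (ν : ℝ) ^ (1 - ε / 3) * (ν : ℝ) ^ (ε / 3) := by
    rw [← Real.rpow_add hνpos]
    have : 1 - ε / 3 + ε / 3 = (1 : ℝ) := by ring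
    rw [this, Real.rpow_one]
  have hhalf : (ν : ℝ) ^ (1 / 2 : ℝ) ≤ (ν : ℝ) ^ (1 - ε / 3) / 4 := by
    -- ν^{1-ε/3} ≥ ν^{1/2} ν^{ε/3}
    have h1 : (ν : ℝ) ^ (1 / 2 : ℝ) * (ν : ℝ) ^ (ε / 3) ≤ (ν : ℝ) ^ (1 - ε / 3) := by
      rw [← Real.rpow_add hνpos]
      apply Real.rpow_le_rpow_of_exponent_le hν1
      linarith
    have h2 : 0 < (ν : ℝ) ^ (1 / 2 : ℝ) := by positivity
    nlinarith
  have hsq1 : (4 : ℝ) ≤ (ν : ℝ) ^ (1 / 2 : ℝ) := by
    have : (0 : ℝ) ≤ n0 := Nat.cast_nonneg _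
    linarith
  have hn3 : (ν : ℝ) ^ (1 / 2 : ℝ) ≤ n := by linarith
  have hn4 : (ν : ℝ) ^ (1 - ε / 3) / 2 ≤ n := by linarith
  have hn1N : 1 ≤ n := by
    have : (1 : ℝ) ≤ n := by linarith
    exact_mod_cast this
  have hnpos : (0 : ℝ) < n := by exact_mod_cast hn1N
  have hnν : n ≤ ν := by
    have h1 : (n : ℝ) ≤ ν := by
      refine hn1.trans ?_
      have : (ν : ℝ) ^ (1 - ε / 3) ≤ (ν : ℝ) ^ (1 : ℝ) :=
        Real.rpow_le_rpow_of_exponent_le hν1 (by linarith)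
      rwa [Real.rpow_one] at this
    exact_mod_cast h1
  have hdiv : ((n / 2 : ℕ) : ℝ) ≥ (n : ℝ) / 4 := by
    have h1 : n ≤ 2 * (n / 2) + 1 := by omega
    have h2 : 4 ≤ n := by
      have : (4 : ℝ) ≤ n := by linarith
      exact_mod_cast this
    have h3 : n ≤ 4 * (n / 2) := by omega
    have h4 : (n : ℝ) ≤ 4 * ((n / 2 : ℕ) : ℝ) := by exact_mod_cast h3
    linarith
  refine ⟨n, min k (n / 2), ?_, min_le_left _ _, ?_, hL1, hnν, hn1N, ?_, hn3, ?_, ?_⟩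
  · refine le_min hkn0 ?_
    have h1 : (n0 : ℝ) ≤ ((n / 2 : ℕ) : ℝ) := by
      have h2 : (n0 : ℝ) + 1 ≤ (n : ℝ) / 4 := by linarith
      linarith
    exact_mod_cast h1
  · have : min k (n / 2) ≤ n / 2 := min_le_right _ _
    omega
  · -- n (N/ν L + 1) ≤ N
    have h1 : (n : ℝ) * (N / ν * L) ≤ N / 2 := by
      have h2 : (n : ℝ) * (2 * L) ≤ ν := by
        calc (n : ℝ) * (2 * L) ≤ (ν : ℝ) ^ (1 - ε / 3) * (ν : ℝ) ^ (ε / 3) :=
              mul_le_mul hn1 hL2 (by positivity) (by positivity)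
          _ = ν := hsplit.symm
      have h3 : (n : ℝ) * (N / ν * L) = (N / 2) * ((n * (2 * L)) / ν) := by
        field_simp
      rw [h3]
      have h4 : (n : ℝ) * (2 * L) / ν ≤ 1 := by
        rw [div_le_one hνpos]
        exact h2
      calc (N : ℝ) / 2 * ((n * (2 * L)) / ν) ≤ N / 2 * 1 :=
            mul_le_mul_of_nonneg_left h4 (by positivity)
        _ = N / 2 := by ring
    have h2 : (n : ℝ) ≤ N / 2 := by
      have h3 : (ν : ℝ) ^ (1 - ε / 3) * 2 ≤ ν := by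
        calc (ν : ℝ) ^ (1 - ε / 3) * 2 ≤ (ν : ℝ) ^ (1 - ε / 3) * (ν : ℝ) ^ (ε / 3) :=
              mul_le_mul_of_nonneg_left (by linarith) (by positivity)
          _ = ν := hsplit.symm
      linarith
    have h3 : (n : ℝ) * (N / ν * L + 1) = n * (N / ν * L) + n := by ring
    rw [h3]
    linarith
  · -- the gap
    have h1 : (n : ℝ) ^ (-(δ / 4)) ≤ (ν : ℝ) ^ (-(δ / 8)) := by
      have h2 : ((ν : ℝ) ^ (1 / 2 : ℝ)) ^ (δ / 4) ≤ (n : ℝ) ^ (δ / 4) :=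
        Real.rpow_le_rpow (by positivity) hn3 (by positivity)
      rw [← Real.rpow_mul hνpos.le] at h2
      have h3 : (1 / 2 : ℝ) * (δ / 4) = δ / 8 := by ring
      rw [h3] at h2
      rw [Real.rpow_neg hnpos.le, Real.rpow_neg hνpos.le]
      exact inv_anti₀ (by positivity) h2
    have h4 : (ν : ℝ) ^ (-(δ / 16)) = (ν : ℝ) ^ (δ / 16) * (ν : ℝ) ^ (-(δ / 8)) := by
      rw [← Real.rpow_add hνpos]
      congr 1
      ring
    rw [h4]
    exact mul_le_mul e3 h1 (by positivity) (by positivity)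
  · -- the exponent
    have hγε : 0 ≤ γ - ε / 3 := by linarith
    have h1 : (ν : ℝ) ^ (γ - ε) ≤ (n : ℝ) ^ (γ - ε / 3) := by
      have h2 : ((ν : ℝ) ^ (1 - ε / 3) / 2) ^ (γ - ε / 3) ≤ (n : ℝ) ^ (γ - ε / 3) :=
        Real.rpow_le_rpow (by positivity) hn4 hγε
      refine le_trans ?_ h2
      rw [Real.div_rpow (by positivity) (by norm_num), ← Real.rpow_mul hνpos.le]
      have h3 : (2 : ℝ) ^ (γ - ε / 3) ≤ 2 := by
        calc (2 : ℝ) ^ (γ - ε / 3) ≤ (2 : ℝ) ^ (1 : ℝ) :=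
              Real.rpow_le_rpow_of_exponent_le (by norm_num) (by linarith)
          _ = 2 := Real.rpow_one _
      have h4 : (ν : ℝ) ^ (γ - 2 * ε / 3) ≤ (ν : ℝ) ^ ((1 - ε / 3) * (γ - ε / 3)) := by
        apply Real.rpow_le_rpow_of_exponent_le hν1
        nlinarith
      have h5 : (ν : ℝ) ^ (γ - 2 * ε / 3) = (ν : ℝ) ^ (ε / 3) * (ν : ℝ) ^ (γ - ε) := by
        rw [← Real.rpow_add hνpos]
        congr 1
        ring
      rw [le_div_iff₀ (by positivity)]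
      have h6 : 0 < (ν : ℝ) ^ (γ - ε) := by positivity
      calc (ν : ℝ) ^ (γ - ε) * (2 : ℝ) ^ (γ - ε / 3) ≤ (ν : ℝ) ^ (γ - ε) * 2 :=
            mul_le_mul_of_nonneg_left h3 h6.le
        _ ≤ (ν : ℝ) ^ (γ - ε) * (ν : ℝ) ^ (ε / 3) :=
            mul_le_mul_of_nonneg_left (by linarith) h6.le
        _ = (ν : ℝ) ^ (γ - 2 * ε / 3) := by rw [h5, mul_comm]
        _ ≤ _ := h4
    have h2 : (ν : ℝ) ^ (γ - ε) ≤ ((n / 2 : ℕ) : ℝ) := by
      have h3 : (ν : ℝ) ^ (γ - ε) * 8 ≤ (ν : ℝ) ^ (1 - ε / 3) := by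
        calc (ν : ℝ) ^ (γ - ε) * 8 ≤ (ν : ℝ) ^ (γ - ε) * (ν : ℝ) ^ (ε / 3) :=
              mul_le_mul_of_nonneg_left (by linarith) (by positivity)
          _ = (ν : ℝ) ^ (γ - ε + ε / 3) := by rw [← Real.rpow_add hνpos]
          _ ≤ (ν : ℝ) ^ (1 - ε / 3) := by
              apply Real.rpow_le_rpow_of_exponent_le hν1
              linarith
      linarith
    rw [Nat.cast_min]
    refine le_min (le_min (min_le_left _ _) ?_) ?_
    · exact (min_le_right _ _).trans h2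
    · exact (min_le_right _ _).trans h1

/-- the lower bound -/
theorem clique_fault (r : ℕ) (hr : 2 ≤ r) (ε : ℝ) (hε : 0 < ε) :
    ∃ δ : ℝ, 0 < δ ∧ ∃ ν0 : ℕ, ∀ ν N k D : ℕ, ν0 ≤ ν → ν0 ≤ k → 2 * k ≤ N → 0 < D →
      D * ν ^ r ≤ N ^ r →
      ∀ (R : Type) [Fintype R] [Nonempty R] (C : R → RC ({e : Finset (Fin N) // e.card = r} × Bool))
        (A0 : ℝ) (s : ℕ), (∀ ρ, (C ρ).T = ∅) → (∀ ρ, (C ρ).S ≤ s) →
        (∀ x, HasClq N r k x → (A0 + (ν : ℝ) ^ (-δ)) *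
          (Fintype.card R * (D : ℝ) ^ Fintype.card {e : Finset (Fin N) // e.card = r}) ≤
          ({z : R × ({e : Finset (Fin N) // e.card = r} → Fin D) |
            (C z.1).acc (lit x (Flt z.2))}.ncard : ℝ)) →
        (∀ x, ¬ HasClq N r k x →
          ({ρ : R | (C ρ).acc (lit x ∅)}.ncard : ℝ) ≤ A0 * Fintype.card R) →
        (ν : ℝ) ^ (δ * min (k : ℝ) ((ν : ℝ) ^ ((r : ℝ) / (r + 1) - ε))) ≤ s := by
  -- it suffices to consider small ε
  wlog hε1 : ε ≤ 1 / 2 with Hw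
  · obtain ⟨δ, hδ, ν0, H⟩ := Hw r hr (1 / 2) (by norm_num) le_rfl
    refine ⟨δ, hδ, max ν0 1, ?_⟩
    intro ν N k D hν hk hkN hD hDN R _ _ C A0 s hT hs hyes hno
    refine le_trans ?_ (H ν N k D ((le_max_left _ _).trans hν) ((le_max_left _ _).trans hk) hkN hD
      hDN R C A0 s hT hs hyes hno)
    have h1 : (1 : ℝ) ≤ ν := by exact_mod_cast (le_max_right _ _).trans hν
    apply Real.rpow_le_rpow_of_exponent_le h1
    apply mul_le_mul_of_nonneg_left _ hδ.le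
    apply min_le_min le_rfl
    apply Real.rpow_le_rpow_of_exponent_le h1
    push Not at hε1
    linarith
  have hrpos : 0 < r := by omega
  obtain ⟨δ, hδ, l0, H⟩ := pars_exist r hr (ε / 3) (by positivity)
  obtain ⟨l1, Hab⟩ := absorb hδ
  obtain ⟨k0, Hk⟩ := choose_l r hr (ε / 3) (by positivity) (max l0 l1)
  obtain ⟨ν0, Hn⟩ := choose_n hε hε1 hδ r hr k0
  refine ⟨δ / 16, by positivity, max ν0 1, ?_⟩
  intro ν N k D hν hk hkN hD hDN R _ _ C A0 s hT hs hyes hno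
  have hν1 : 1 ≤ ν := (le_max_right _ _).trans hν
  have hνR : (1 : ℝ) ≤ ν := by exact_mod_cast hν1
  have hνpos : (0 : ℝ) < ν := by linarith
  have hνN : ν ≤ N := by
    have h1 : ν ^ r ≤ N ^ r := (Nat.le_mul_of_pos_left _ hD).trans hDN
    exact (Nat.pow_le_pow_iff_left hrpos.ne').mp h1
  have hNR : (ν : ℝ) ≤ N := by exact_mod_cast hνN
  have hNpos : (0 : ℝ) < N := by linarith
  obtain ⟨n, k', hk'0, hk'k, hk'n, hL1, hnν, hn1, hnN, hnhalf, hgap, hmin⟩ :=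
    Hn ν N k ((le_max_left _ _).trans hν) ((le_max_left _ _).trans hk) hνN
  obtain ⟨l, hl, hlk, -, hln, hminl⟩ := Hk n k' hk'0 hk'n
  have hnR : (1 : ℝ) ≤ n := by exact_mod_cast hn1
  have hnpos : (0 : ℝ) < n := by linarith
  obtain ⟨b2, b, q, M, m, s', w, m', P, h1, h2, h3, h4⟩ := H n l ((le_max_left _ _).trans hl) hln
  have hj0 := P.j0_le hr h1
  obtain ⟨g1, g2, g3⟩ := Hab n l q m (w / (2 * b) / b + 1) ((le_max_right _ _).trans hl)
    (by omega) (Nat.le_add_left 1 _) hj0 h4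
  have hMpos : 0 < M := by
    have := P.hM
    have := P.hm
    omega
  have hm'pos : 0 < m' := by
    have h5 : (1 : ℝ) ≤ m' := (Real.one_le_rpow hnR hδ.le).trans h3
    exact_mod_cast h5
  by_contra hcon
  push Not at hcon
  have hsz : (s : ℝ) < (n : ℝ) ^ (δ / 4 * l) := by
    refine lt_of_lt_of_le hcon ?_
    have h5 : (0 : ℝ) ≤ min (k : ℝ) ((ν : ℝ) ^ ((r : ℝ) / (r + 1) - ε)) :=
      le_min (Nat.cast_nonneg _) (by positivity)
    calc (ν : ℝ) ^ (δ / 16 * min (k : ℝ) ((ν : ℝ) ^ ((r : ℝ) / (r + 1) - ε))) ≤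
          (ν : ℝ) ^ ((1 / 2 : ℝ) * (δ / 4 * l)) := by
          apply Real.rpow_le_rpow_of_exponent_le hνR
          have h6 := hmin.trans hminl
          have h7 : (0 : ℝ) ≤ l := Nat.cast_nonneg _
          nlinarith
      _ = ((ν : ℝ) ^ (1 / 2 : ℝ)) ^ (δ / 4 * l) := by rw [← Real.rpow_mul hνpos.le]
      _ ≤ (n : ℝ) ^ (δ / 4 * l) := Real.rpow_le_rpow (by positivity) hnhalf (by positivity)
  -- the number of places
  set L : ℝ := (r + δ) * Real.log ν with hL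
  set κ : ℕ := ⌈(N : ℝ) / ν * L⌉₊ with hκdef
  have hκ1 : (N : ℝ) / ν * L ≤ κ := Nat.le_ceil _
  have hκ2 : (κ : ℝ) ≤ N / ν * L + 1 := (Nat.ceil_lt_add_one (by positivity)).le
  have hκpos : 0 < κ := by
    rw [hκdef, Nat.ceil_pos]
    positivity
  have hκD : (D : ℝ) * L ≤ (κ : ℝ) ^ r := by
    have h5 : (D : ℝ) ≤ (N / ν) ^ r := by
      rw [div_pow, le_div_iff₀ (by positivity)]
      exact_mod_cast hDN
    have h6 : L ≤ L ^ r := le_self_pow₀ hL1 hrpos.ne'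
    calc (D : ℝ) * L ≤ (N / ν) ^ r * L ^ r :=
          mul_le_mul h5 h6 (by positivity) (by positivity)
      _ = (N / ν * L) ^ r := (mul_pow _ _ _).symm
      _ ≤ (κ : ℝ) ^ r := pow_le_pow_left₀ (by positivity) hκ1 r
  have hbad := places (X := m' * (M * q ^ (r * b2))) (δ := δ / 4) (L := L) hD hn1
    (card_bits hrpos hm'pos hMpos h2) (by
      have h5 : Real.log n ≤ Real.log ν := Real.log_le_log hnpos (by exact_mod_cast hnν)
      have h6 : 0 ≤ Real.log n := Real.log_nonneg hnR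
      have h7 : 0 ≤ Real.log ν := Real.log_nonneg hνR
      rw [hL]
      calc ((r : ℝ) + δ / 4) * Real.log n ≤ (r + δ) * Real.log n := by
            apply mul_le_mul_of_nonneg_right _ h6
            linarith
        _ ≤ (r + δ) * Real.log ν := mul_le_mul_of_nonneg_left h5 (by positivity)) hκD
  obtain ⟨r0, hr0⟩ : ∃ r0, k = r * M + r0 := ⟨k - r * M, by omega⟩
  have hvert : m' * (M * (r * (q ^ b2 * κ))) + r0 ≤ N := by
    have h5 : (2 : ℝ) * ((m' * (M * (r * (q ^ b2 * κ))) : ℕ) : ℝ) ≤ N := by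
      have h6 : (2 : ℝ) * ((m' * (M * (r * (q ^ b2 * κ))) : ℕ) : ℝ) =
          ((2 * (m' * (M * (r * q ^ b2))) : ℕ) : ℝ) * κ := by
        push_cast
        ring
      rw [h6]
      calc ((2 * (m' * (M * (r * q ^ b2))) : ℕ) : ℝ) * κ ≤ n * (N / ν * L + 1) := by
            apply mul_le_mul _ hκ2 (Nat.cast_nonneg _) (Nat.cast_nonneg _)
            exact_mod_cast h2
        _ ≤ N := hnN
    have h6 : 2 * (m' * (M * (r * (q ^ b2 * κ)))) ≤ N := by exact_mod_cast h5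
    omega
  have hD1 : (0 : ℝ) < D := by exact_mod_cast hD
  refine clique_fault_param (m' := m') (r0 := r0) (g := 2 * (n : ℝ) ^ (-(δ / 4))) hr P hκpos hD
    hvert C hT A0 ?_ ?_ (by rw [← hr0]; exact hno) ?_ ?_ ?_ ?_
  · refine hbad.trans (le_of_eq ?_)
    ring
  · rw [← hr0]
    intro x hx
    refine le_trans ?_ (hyes x hx)
    apply mul_le_mul_of_nonneg_right _ (by positivity)
    linarith
  · have h5 := g2 m' h3
    have h6 : (1 : ℝ) ≤ (n : ℝ) ^ (δ / 4) := Real.one_le_rpow hnR (by positivity)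
    linarith
  · intro ρ
    refine (hs ρ).trans (g3 s hsz).1
  · linarith
  · intro ρ
    have h5 := (g3 s hsz).2
    have h6 : ((C ρ).S : ℝ) ≤ s := by exact_mod_cast hs ρ
    have h7 : 16 * ((C ρ).S : ℝ) * 2 ^ (w / (2 * b) / b + 1) ≤
        16 * (s : ℝ) * 2 ^ (w / (2 * b) / b + 1) := by
      apply mul_le_mul_of_nonneg_right _ (by positivity)
      linarith
    have h8 : 2 * (n : ℝ) ^ (-(δ / 4)) / 2 = (n : ℝ) ^ (-(δ / 4)) := by ring
    rw [h8]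
    exact lt_of_le_of_lt h7 h5

end Pool.Agent.Q9h3.UN
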